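import Pool.Agent.W830.RD.Stm

/-!
# König's theorem for a finite bipartite relation
-/

set_option autoImplicit false

namespace Pool.Agent.W925.RD.Konig

open Finset
open Pool.Agent.W830.RD
open scoped Classical

theorem hall {α β : Type} (A : Finset α) (T' : Finset β) (r : α → β → Prop)
    (h : ∀ W ⊆ A, W.card ≤ (T'.filter (fun b => ∃ a ∈ W, r a b)).card) :
    ∃ f : {a // a ∈ A} → β, Function.Injective f ∧ ∀ x, f x ∈ T' ∧ r x.1 (f x) := by
  obtain ⟨f, hf, hf'⟩ := (Finset.all_card_le_biUnion_card_iff_exists_injective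
    (fun a : {a // a ∈ A} => T'.filter (fun b => r a.1 b))).1 (by
      intro s
      have h1 : (s.image Subtype.val).card = s.card :=
        Finset.card_image_of_injective _ Subtype.val_injective
      have h2 : s.image Subtype.val ⊆ A := by
        intro a ha
        obtain ⟨x, -, rfl⟩ := Finset.mem_image.1 ha
        exact x.2
      have h3 := h _ h2
      rw [h1] at h3
      refine h3.trans (Finset.card_le_card ?_)
      intro b hb
      rw [Finset.mem_filter] at hb
      obtain ⟨hb, a, ha, hr⟩ := hb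
      obtain ⟨x, hx, rfl⟩ := Finset.mem_image.1 ha
      exact Finset.mem_biUnion.2 ⟨x, hx, Finset.mem_filter.2 ⟨hb, hr⟩⟩)
  exact ⟨f, hf, fun x => Finset.mem_filter.1 (hf' x)⟩

/-- König's theorem -/
theorem main (α β : Type) [Nonempty β] (S : Finset α) (T : Finset β) (r : α → β → Prop) :
    ∃ (I : Finset α) (m : α → β) (A : Finset α) (B : Finset β),
      I ⊆ S ∧ (∀ a ∈ I, m a ∈ T ∧ r a (m a)) ∧ (∀ a ∈ I, ∀ a' ∈ I, m a = m a' → a = a') ∧
      A ⊆ S ∧ B ⊆ T ∧ (∀ a ∈ S, ∀ b ∈ T, r a b → a ∈ A ∨ b ∈ B) ∧ A.card + B.card ≤ I.card := by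
  obtain ⟨⟨A, B⟩, ⟨hA, hB, hcov⟩, hmin⟩ := WellFounded.has_min
    (measure (fun p : Finset α × Finset β => p.1.card + p.2.card)).wf
    {p : Finset α × Finset β | p.1 ⊆ S ∧ p.2 ⊆ T ∧
      ∀ a ∈ S, ∀ b ∈ T, r a b → a ∈ p.1 ∨ b ∈ p.2}
    ⟨(S, ∅), subset_rfl, Finset.empty_subset _, fun a ha _ _ _ => Or.inl ha⟩
  have hmin' : ∀ (A' : Finset α) (B' : Finset β), A' ⊆ S → B' ⊆ T →
      (∀ a ∈ S, ∀ b ∈ T, r a b → a ∈ A' ∨ b ∈ B') → A.card + B.card ≤ A'.card + B'.card := by
    intro A' B' h1 h2 h3
    exact not_lt.1 (hmin (A', B') ⟨h1, h2, h3⟩)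
  simp only at hA hB hcov
  -- the two matchings
  obtain ⟨mA, hmA, hmA'⟩ := hall A (T \ B) r (by
    intro W hW
    by_contra hlt
    push Not at hlt
    set N := (T \ B).filter (fun b => ∃ a ∈ W, r a b) with hN
    have h1 := hmin' (A \ W) (B ∪ N) (Finset.sdiff_subset.trans hA)
      (Finset.union_subset hB ((Finset.filter_subset _ _).trans Finset.sdiff_subset)) (by
        intro a ha b hb hr
        rcases hcov a ha b hb hr with h | h
        · by_cases haW : a ∈ W
          · right
            by_cases hbB : b ∈ B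
            · exact Finset.mem_union_left _ hbB
            · exact Finset.mem_union_right _ (Finset.mem_filter.2
                ⟨Finset.mem_sdiff.2 ⟨hb, hbB⟩, a, haW, hr⟩)
          · exact Or.inl (Finset.mem_sdiff.2 ⟨h, haW⟩)
        · exact Or.inr (Finset.mem_union_left _ h))
    have h2 := Finset.card_union_le B N
    have h3 := Finset.card_sdiff_add_card_eq_card hW
    omega)
  obtain ⟨mB, hmB, hmB'⟩ := hall B (S \ A) (fun b a => r a b) (by
    intro W hW
    by_contra hlt
    push Not at hlt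
    set N := (S \ A).filter (fun a => ∃ b ∈ W, r a b) with hN
    have h1 := hmin' (A ∪ N) (B \ W)
      (Finset.union_subset hA ((Finset.filter_subset _ _).trans Finset.sdiff_subset))
      (Finset.sdiff_subset.trans hB) (by
        intro a ha b hb hr
        rcases hcov a ha b hb hr with h | h
        · exact Or.inl (Finset.mem_union_left _ h)
        · by_cases hbW : b ∈ W
          · left
            by_cases haA : a ∈ A
            · exact Finset.mem_union_left _ haA
            · exact Finset.mem_union_right _ (Finset.mem_filter.2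
                ⟨Finset.mem_sdiff.2 ⟨ha, haA⟩, b, hbW, hr⟩)
          · exact Or.inr (Finset.mem_sdiff.2 ⟨h, hbW⟩))
    have h2 := Finset.card_union_le A N
    have h3 := Finset.card_sdiff_add_card_eq_card hW
    omega)
  set J : Finset α := Finset.univ.image mB with hJ
  have hJS : J ⊆ S \ A := by
    intro a ha
    obtain ⟨b, -, rfl⟩ := Finset.mem_image.1 ha
    exact (hmB' b).1
  have hJc : J.card = B.card := by
    rw [hJ, Finset.card_image_of_injective _ hmB, Finset.card_univ, Fintype.card_coe]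
  have hdisj : Disjoint A J := by
    rw [Finset.disjoint_left]
    intro a ha haJ
    exact (Finset.mem_sdiff.1 (hJS haJ)).2 ha
  set m : α → β := fun a => if h : a ∈ A then mA ⟨a, h⟩ else
    if h' : ∃ b : {b // b ∈ B}, mB b = a then (Classical.choose h').1 else Classical.arbitrary β
    with hm
  have m1 : ∀ a (h : a ∈ A), m a = mA ⟨a, h⟩ := by
    intro a h
    simp only [hm, dif_pos h]
  have m2 : ∀ a ∈ J, ∃ b : {b // b ∈ B}, m a = b.1 ∧ mB b = a := by
    intro a ha
    have h1 : a ∉ A := (Finset.mem_sdiff.1 (hJS ha)).2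
    have h2 : ∃ b : {b // b ∈ B}, mB b = a := by
      obtain ⟨b, -, hb⟩ := Finset.mem_image.1 ha
      exact ⟨b, hb⟩
    refine ⟨Classical.choose h2, ?_, Classical.choose_spec h2⟩
    simp only [hm, dif_neg h1, dif_pos h2]
  refine ⟨A ∪ J, m, A, B, Finset.union_subset hA (hJS.trans Finset.sdiff_subset), ?_, ?_, hA, hB,
    hcov, ?_⟩
  · intro a ha
    rcases Finset.mem_union.1 ha with h | h
    · rw [m1 a h]
      exact ⟨(Finset.mem_sdiff.1 (hmA' ⟨a, h⟩).1).1, (hmA' ⟨a, h⟩).2⟩
    · obtain ⟨b, hb, hba⟩ := m2 a h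
      rw [hb]
      refine ⟨hB b.2, ?_⟩
      have := (hmB' b).2
      rwa [hba] at this
  · intro a ha a' ha' haa
    rcases Finset.mem_union.1 ha with h | h <;> rcases Finset.mem_union.1 ha' with h' | h'
    · rw [m1 a h, m1 a' h'] at haa
      exact congrArg Subtype.val (hmA haa)
    · exfalso
      obtain ⟨b, hb, -⟩ := m2 a' h'
      rw [m1 a h, hb] at haa
      have := (Finset.mem_sdiff.1 (hmA' ⟨a, h⟩).1).2
      rw [haa] at this
      exact this b.2
    · exfalso
      obtain ⟨b, hb, -⟩ := m2 a h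
      rw [m1 a' h', hb] at haa
      have := (Finset.mem_sdiff.1 (hmA' ⟨a', h'⟩).1).2
      rw [← haa] at this
      exact this b.2
    · obtain ⟨b, hb, hba⟩ := m2 a h
      obtain ⟨b', hb', hba'⟩ := m2 a' h'
      rw [hb, hb'] at haa
      rw [← hba, ← hba', Subtype.ext haa]
  · rw [Finset.card_union_of_disjoint hdisj, hJc]

end Pool.Agent.W925.RD.Konig
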